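import Pool.Agent.H.MP_43f46b_al.T

set_option autoImplicit false
set_option linter.unusedSectionVars false

namespace Pool.Agent.H.MP_debe6c_al

open Finset Pool.Agent.H.MP_43f46b_al Module

/-- truncated free algebra data -/
def Tr (k : Type) [Field k] {A : Type} [Ring A] [Algebra k A] {d : ℕ} (X : Fin d → A) (n : ℕ) :
    Prop :=
  sw k X (fun _ => True) = ⊤ ∧ (∀ w : List (Fin d), n ≤ w.length → ev X w = 0) ∧
    ∃ c : List (Fin d) → A →ₗ[k] k, ∀ w u, w.length < n → c w (ev X u) = if u = w then 1 else 0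

lemma sub {k E : Type} [Field k] [Ring E] [Algebra k E] {d n : ℕ} (X : Fin d → E)
    (h : ∀ w : List (Fin d), n ≤ w.length → ev X w = 0) (c : List (Fin d) → E →ₗ[k] k)
    (hc : ∀ w u, w.length < n → c w (ev X u) = if u = w then 1 else 0) :
    ∃ (A : Type) (_ : Ring A) (_ : Algebra k A) (X : Fin d → A), Tr k X n := by
  let X' : Fin d → Algebra.adjoin k (Set.range X) := fun i => ⟨X i, Algebra.subset_adjoin ⟨i, rfl⟩⟩
  have e : ∀ u, (ev X' u).1 = ev X u := fun u => by
    induction u with
    | nil => rfl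
    | cons i u ih => rw [ev_cons, ev_cons, ← ih]; rfl
  refine ⟨Algebra.adjoin k (Set.range X), inferInstance, inferInstance, X', ?_,
    fun w hw => Subtype.ext ((e w).trans (h w hw)),
    fun w => c w ∘ₗ (Subalgebra.val _).toLinearMap, fun w u hw => ?_⟩
  · refine eq_top_iff.2 fun ⟨x, hx⟩ _ => ?_
    induction hx using Algebra.adjoin_induction with
    | mem x hx => obtain ⟨i, rfl⟩ := hx; exact sw_one (v := X') (s := i) trivial
    | algebraMap r =>
      have := Submodule.smul_mem (sw k X' fun _ => True) r (Submodule.subset_span ⟨[], trivial, rfl⟩)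
      convert this using 1
      exact Subtype.ext (Algebra.algebraMap_eq_smul_one r)
    | add x y _ _ hx hy => exact add_mem (hx trivial) (hy trivial)
    | mul x y _ _ hx hy => exact sw_mul (fun _ _ _ _ => trivial) (hx trivial) (hy trivial)
  · rw [← hc w u hw, ← e]; rfl

theorem trunc (k : Type) [Field k] (d n : ℕ) (hn : 0 < n) :
    ∃ (A : Type) (_ : Ring A) (_ : Algebra k A) (X : Fin d → A), Tr k X n := by
  let X : Fin d → End k (List (Fin d) →₀ k) := fun i => Finsupp.linearCombination k
    fun w => if w.length + 1 < n then Finsupp.single (i :: w) 1 else 0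
  have a : ∀ u w : List (Fin d), u ≠ [] ∨ w.length < n → ev X u (Finsupp.single w 1) =
      if u.length + w.length < n then Finsupp.single (u ++ w) 1 else 0 := fun u w => by
    induction u with
    | nil => intro h; simp [ev, h.resolve_left (by simp)]
    | cons i u ih =>
      intro _
      rw [ev_cons, End.mul_apply]
      by_cases h : u ≠ [] ∨ w.length < n
      · rw [ih h]
        split_ifs with h1 h2 h2
        · simp [X]; simp at h2; omega
        · simp [X]; simp at h2; omega
        · simp at h2; omega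
        · simp
      · push Not at h
        obtain ⟨rfl, h⟩ := h
        simp [ev, X, add_comm]
  refine sub X (fun w hw => ?_) (fun w => Finsupp.lapply w ∘ₗ LinearMap.applyₗ
      (Finsupp.single [] (1 : k))) fun w u hw => ?_
  · refine Finsupp.lhom_ext' fun u => LinearMap.ext_ring ?_
    have := a w u (Or.inl (by rintro rfl; simp at hw; omega))
    rw [if_neg (by omega)] at this
    simpa using this
  · have := a u [] (Or.inr hn)
    simp only [LinearMap.comp_apply, LinearMap.applyₗ_apply_apply, this, Finsupp.lapply_apply]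
    by_cases h : u = w
    · simp [h, hw]
    · split_ifs <;> simp [h]

section
variable {k U W : Type} [Field k] [AddCommGroup U] [Module k U] [AddCommGroup W] [Module k W]
  [FiniteDimensional k U] [FiniteDimensional k W]

lemma la1 (f : U →ₗ[k] W) {S T : Submodule k W} (h1 : S ≤ T) (h2 : ∀ u, f u ∈ T) :
    finrank k U + finrank k S ≤ finrank k (S.comap f) + finrank k T := by
  have a1 := (S.mkQ ∘ₗ f).finrank_range_add_finrank_ker
  rw [LinearMap.ker_comp, Submodule.ker_mkQ] at a1
  have a2 := (S.mkQ.domRestrict T).finrank_range_add_finrank_ker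
  rw [LinearMap.ker_domRestrict, Submodule.ker_mkQ,
    (Submodule.comapSubtypeEquivOfLe h1).finrank_eq] at a2
  have a3 : finrank k (LinearMap.range (S.mkQ ∘ₗ f)) ≤
      finrank k (LinearMap.range (S.mkQ.domRestrict T)) :=
    Submodule.finrank_mono (by rintro _ ⟨u, rfl⟩; exact ⟨⟨f u, h2 u⟩, rfl⟩)
  omega

lemma la2 (f : U →ₗ[k] W) {S : Submodule k U} {T : Submodule k W} (h : ∀ u ∈ S, f u ∈ T) :
    finrank k ↥(T ⊔ LinearMap.range f) + finrank k S ≤ finrank k T + finrank k U := by
  obtain ⟨C, hC⟩ := S.exists_isCompl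
  have a1 := Submodule.finrank_add_eq_of_isCompl hC
  have a2 : T ⊔ LinearMap.range f ≤ T ⊔ C.map f := sup_le le_sup_left (by
    rintro _ ⟨u, rfl⟩
    obtain ⟨x, h1, y, h2, rfl⟩ := Submodule.mem_sup.1 (hC.sup_eq_top ▸ Submodule.mem_top (x := u))
    rw [map_add]
    exact Submodule.add_mem_sup (h x h1) ⟨y, h2, rfl⟩)
  have a3 := (Submodule.finrank_mono a2).trans (Submodule.finrank_add_le_finrank_add_finrank _ _)
  have a4 := Submodule.finrank_map_le f C
  omega

lemma la3 (S : Submodule k W) (d : ℕ) :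
    finrank k (Submodule.pi Set.univ fun _ : Fin d => S) = d * finrank k S := by
  let e : (Submodule.pi Set.univ fun _ : Fin d => S) ≃ₗ[k] (Fin d → S) :=
    { toFun := fun v i => ⟨v.1 i, v.2 i trivial⟩
      invFun := fun v => ⟨fun i => v i, fun i _ => (v i).2⟩
      map_add' := fun _ _ => rfl
      map_smul' := fun _ _ => rfl
      left_inv := fun _ => rfl
      right_inv := fun _ => rfl }
  rw [e.finrank_eq, finrank_pi_fintype]; simp
end

variable {k A : Type} [Field k] [Ring A] [Algebra k A] {d n : ℕ} {X : Fin d → A}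

/-- length filtration -/
abbrev Lf (k : Type) [Field k] [Algebra k A] (X : Fin d → A) (m : ℕ) : Submodule k A :=
  sw k X fun u => m ≤ u.length

lemma lf_fl (h : Tr k X n) : Fl (Lf k X) :=
  ⟨by rw [← h.1]; simp [Lf], fun a b e => sw_mono fun u => e.trans,
    fun a b x y hx hy => sw_mul (fun u u' h1 h2 => by simp; omega) hx hy⟩

lemma tr_fin (h : Tr k X n) : FiniteDimensional k A := by
  have : Submodule.span k (ev X '' {w | w.length < n}) = ⊤ := by
    rw [eq_top_iff, ← h.1, Submodule.span_le]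
    rintro _ ⟨w, -, rfl⟩
    rcases lt_or_ge w.length n with c | c
    · exact Submodule.subset_span ⟨w, c, rfl⟩
    · rw [h.2.1 w c]; exact zero_mem _
  exact ⟨this ▸ Submodule.fg_span ((List.finite_length_lt _ n).image _)⟩

lemma lf_dec {m : ℕ} {a : A} (ha : a ∈ Lf k X (m + 1)) :
    ∃ v : Fin d → A, (∀ i, v i ∈ Lf k X m) ∧ a = ∑ i, X i * v i := by
  induction ha using Submodule.span_induction with
  | mem x hx =>
    obtain ⟨u, hu, rfl⟩ := hx
    obtain ⟨i, u, rfl⟩ := List.exists_cons_of_length_pos (Nat.zero_lt_of_lt hu)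
    refine ⟨Pi.single i (ev X u), fun j => ?_, by simp [Pi.single_apply, ev_cons]⟩
    rw [Pi.single_apply]; split_ifs
    exacts [Submodule.subset_span ⟨u, by simpa using hu, rfl⟩, zero_mem _]
  | zero => exact ⟨0, by simp, by simp⟩
  | add x y _ _ hx hy =>
    obtain ⟨v, h1, rfl⟩ := hx
    obtain ⟨v', h2, rfl⟩ := hy
    exact ⟨v + v', fun i => add_mem (h1 i) (h2 i), by simp [mul_add, sum_add_distrib]⟩
  | smul c x _ hx =>
    obtain ⟨v, h1, rfl⟩ := hx
    exact ⟨c • v, fun i => Submodule.smul_mem _ _ (h1 i), by simp [smul_sum]⟩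

lemma lf_free (h : Tr k X n) : (0 < n → 1 ∉ Lf k X 1) ∧ ∀ m < n, ∀ v : Fin d → A,
    ∑ i, X i * v i ∈ Lf k X (m + 1) → ∀ i, v i ∈ Lf k X m := by
  classical
  obtain ⟨h1, h2, c, hc⟩ := h
  have a1 : ∀ m ≤ n, ∀ a ∈ Lf k X m, ∀ w : List (Fin d), w.length < m → c w a = 0 :=
    fun m hm a ha w hw => (Submodule.span_le (p := LinearMap.ker (c w))).2 (by
      rintro _ ⟨u, hu, rfl⟩
      have : u ≠ w := by rintro rfl; exact hw.not_ge hu
      simp [hc w u (by omega), this]) ha
  have a2 : ∀ a : A, a = ∑ w ∈ (List.finite_length_lt _ n).toFinset, c w a • ev X w := fun a => by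
    have ha : a ∈ sw k X fun _ => True := by simp [h1]
    induction ha using Submodule.span_induction with
    | mem x hx =>
      obtain ⟨u, -, rfl⟩ := hx
      rw [sum_congr rfl fun w hw => by rw [hc w u (by simpa using hw)]]
      rcases lt_or_ge u.length n with e | e
      · simp [e]
      · simp [h2 u e, e.not_gt]
    | zero => simp
    | add x y _ _ hx hy => simp only [map_add, add_smul, sum_add_distrib, ← hx, ← hy]
    | smul r x _ hx => simp only [map_smul, smul_eq_mul, mul_smul, ← smul_sum, ← hx]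
  have a3 : ∀ i j (w : List (Fin d)) (a : A), w.length + 1 < n →
      c (j :: w) (X i * a) = if i = j then c w a else 0 := fun i j w a hw => by
    have ha : a ∈ sw k X fun _ => True := by simp [h1]
    induction ha using Submodule.span_induction with
    | mem x hx =>
      obtain ⟨u, -, rfl⟩ := hx
      rw [← ev_cons, hc _ _ (by simpa using hw), hc _ _ (by omega)]
      by_cases e : i = j <;> simp [e]
    | zero => simp
    | add x y _ _ hx hy => simp only [mul_add, map_add, hx, hy]; split_ifs <;> simp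
    | smul r x _ hx => simp only [mul_smul_comm, map_smul, hx]; split_ifs <;> simp
  refine ⟨fun hn e => ?_, fun m hm v hv i => ?_⟩
  · have := a1 1 hn 1 e [] (by simp)
    simpa [this, ev] using hc [] [] hn
  · rw [a2 (v i)]
    refine sum_mem fun w _ => ?_
    rcases lt_or_ge w.length m with e | e
    · have := a1 (m + 1) hm _ hv (i :: w) (by simpa using e)
      simp only [map_sum, a3 _ _ w _ (by omega), sum_ite_eq', mem_univ, if_true] at this
      simp [this]
    · exact Submodule.smul_mem _ _ (Submodule.subset_span ⟨w, e, rfl⟩)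

/-- two-sided ideal generated by `f` -/
abbrev Id (k : Type) [Field k] [Algebra k A] {r : ℕ} (f : Fin r → A) : Submodule k A :=
  Submodule.span k {x | ∃ t j s, x = t * f j * s}

lemma id_mul {r : ℕ} {f : Fin r → A} {x : A} (hx : x ∈ Id k f) (a b : A) :
    a * x * b ∈ Id k f := by
  induction hx using Submodule.span_induction with
  | mem x hx =>
    obtain ⟨t, j, s, rfl⟩ := hx
    exact Submodule.subset_span ⟨a * t, j, s * b, by simp only [mul_assoc]⟩
  | zero => simp
  | add x y _ _ hx hy => rw [mul_add, add_mul]; exact add_mem hx hy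
  | smul c x _ hx => rw [mul_smul_comm, smul_mul_assoc]; exact Submodule.smul_mem _ _ hx

theorem gs (h : Tr k X n) {r : ℕ} {f : Fin r → A} (hf : ∀ j, f j ∈ Lf k X 2) (hd : 2 < d)
    (hr : 4 * r ≤ d ^ 2) (m : ℕ) (hm : m < n) :
    (3 / 2 : ℝ) ^ m + finrank k ↥(Id k f ⊔ Lf k X (m + 1)) ≤ finrank k A := by
  have := tr_fin h
  have hJ := lf_fl h
  obtain ⟨f1, f2⟩ := lf_free h
  choose g g1 g2 using fun j => lf_dec (hf j)
  have i1 : Id k f ≤ Lf k X 1 := Submodule.span_le.2 (by
    rintro _ ⟨t, j, s, rfl⟩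
    exact hJ.2.1 (by omega) (hJ.2.2 _ 0 _ s (hJ.2.2 0 _ t _ (by simp [hJ.1]) (hf j))
      (by simp [hJ.1])))
  have l1 : finrank k (Lf k X 1) < finrank k A :=
    Submodule.finrank_lt fun e => f1 (by omega) (by simp [e])
  let Ψ : (Fin d → A) →ₗ[k] A := ∑ i, LinearMap.mulLeft k (X i) ∘ₗ LinearMap.proj i
  have hΨ : ∀ v, Ψ v = ∑ i, X i * v i := fun v => by simp [Ψ]
  let Θ : (Fin r → A) →ₗ[k] (Fin d → A) :=
    LinearMap.pi fun i => ∑ j, LinearMap.mulLeft k (g j i) ∘ₗ LinearMap.proj j
  have hΘ : ∀ u i, Θ u i = ∑ j, g j i * u j := fun u i => by simp [Θ]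
  have hΨΘ : ∀ u, Ψ (Θ u) = ∑ j, f j * u j := fun u => by
    simp only [hΨ, hΘ, g2, sum_mul, mul_sum, mul_assoc]; exact sum_comm
  have i2 : Id k f ≤ (Submodule.pi Set.univ (fun _ => Id k f) ⊔ LinearMap.range Θ).map Ψ :=
    Submodule.span_le.2 (by
      rintro _ ⟨t, j, s, rfl⟩
      have ht : t ∈ Submodule.span k {1} ⊔ Lf k X 1 := by
        refine (?_ : Lf k X 0 ≤ _) (by simp [hJ.1])
        refine Submodule.span_le.2 ?_
        rintro _ ⟨u, -, rfl⟩
        cases u with
        | nil => exact Submodule.mem_sup_left (Submodule.subset_span rfl)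
        | cons a u => exact Submodule.mem_sup_right (Submodule.subset_span ⟨_, by simp, rfl⟩)
      obtain ⟨_, h1, t', h2, rfl⟩ := Submodule.mem_sup.1 ht
      obtain ⟨c, rfl⟩ := Submodule.mem_span_singleton.1 h1
      obtain ⟨v, -, rfl⟩ := lf_dec h2
      refine ⟨_, Submodule.add_mem_sup (show (fun i => v i * f j * s) ∈ _ from fun i _ =>
        Submodule.subset_span ⟨_, j, s, rfl⟩) ⟨Pi.single j (c • s), rfl⟩, ?_⟩
      rw [map_add, hΨΘ, hΨ]
      simp [Pi.single_apply, add_mul, sum_mul, mul_assoc, add_comm])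
  let b : ℕ → ℝ := fun m => finrank k A - finrank k ↥(Id k f ⊔ Lf k X m)
  have b0 : ∀ m, 0 ≤ b m := fun m => sub_nonneg.2 (Nat.cast_le.2 (Submodule.finrank_le _))
  have b1 : 1 ≤ b 1 := by
    simp only [b]
    rw [sup_of_le_right i1, le_sub_iff_add_le']; exact_mod_cast l1
  have b2 : ∀ m, m + 1 < n → d * b (m + 1) ≤ b (m + 2) + r * b m := fun m hm => by
    have a1 := la1 Ψ (S := Id k f ⊔ Lf k X (m + 2)) (sup_le i1 (hJ.2.1 (by omega)))
      (T := Lf k X 1) fun v => by
        rw [hΨ]; exact sum_mem fun i _ => hJ.2.2 1 0 _ _ (sw_one le_rfl) (by simp [hJ.1])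
    have a2 := la2 Θ (S := Submodule.pi Set.univ fun _ => Id k f ⊔ Lf k X m)
      (T := Submodule.pi Set.univ fun _ => Id k f ⊔ Lf k X (m + 1)) fun u hu i _ => by
        rw [hΘ]
        refine sum_mem fun j _ => ?_
        obtain ⟨x, h1, y, h2, e⟩ := Submodule.mem_sup.1 (hu j trivial)
        rw [← e, mul_add, add_comm m]
        exact Submodule.add_mem_sup (by simpa using id_mul h1 (g j i) 1)
          (hJ.2.2 _ _ _ _ (g1 j i) h2)
    have a3 : (Id k f ⊔ Lf k X (m + 2)).comap Ψ ≤
        (Submodule.pi Set.univ fun _ => Id k f ⊔ Lf k X (m + 1)) ⊔ LinearMap.range Θ := by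
      intro v hv
      obtain ⟨_, h1, y, h2, e⟩ := Submodule.mem_sup.1 hv
      obtain ⟨u, h3, rfl⟩ := i2 h1
      have h4 := f2 (m + 1) hm (v - u) (by rw [← hΨ, map_sub, ← e]; simpa using h2)
      rw [← sub_add_cancel v u]
      exact add_mem (Submodule.mem_sup_left fun i _ => Submodule.mem_sup_right (h4 i))
        (SetLike.le_def.1 (sup_le_sup_right (Submodule.pi_mono fun _ _ => le_sup_left) _) h3)
    have a4 := Submodule.finrank_mono a3
    rw [la3, la3, finrank_pi_fintype] at a2
    rw [finrank_pi_fintype] at a1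
    simp only [sum_const, card_univ, Fintype.card_fin, smul_eq_mul] at a1 a2
    have a5 : d * finrank k A + finrank k ↥(Id k f ⊔ Lf k X (m + 2)) +
        r * finrank k ↥(Id k f ⊔ Lf k X m) ≤ d * finrank k ↥(Id k f ⊔ Lf k X (m + 1)) +
        r * finrank k A + finrank k A := by omega
    have a6 := (Nat.cast_le (α := ℝ)).2 a5
    push_cast at a6
    simp only [b]; linarith
  have d3 : (3 : ℝ) ≤ d := by exact_mod_cast hd
  have r4 : (4 : ℝ) * r ≤ d ^ 2 := by exact_mod_cast hr
  have b3 : ∀ m < n, (3 / 2 : ℝ) ^ m ≤ b (m + 1) - d / 2 * b m := fun m hm => by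
    induction m with
    | zero =>
      have : b 0 = 0 := by simp only [b]; rw [hJ.1, sup_top_eq, finrank_top, sub_self]
      simpa [this] using b1
    | succ m ih =>
      have := ih (by omega)
      have := b2 m hm
      have : (0 : ℝ) < (3 / 2) ^ m := by positivity
      rw [pow_succ]
      nlinarith [mul_nonneg (sub_nonneg.2 r4) (b0 m)]
  have := b3 m hm
  have := mul_nonneg (show (0 : ℝ) ≤ d / 2 by positivity) (b0 m)
  simp only [b] at *
  linarith

end Pool.Agent.H.MP_debe6c_al
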