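import Pool.Agent.H.MP_debe6c_al.G

set_option autoImplicit false
set_option linter.unusedSectionVars false

namespace Pool.Agent.H.MP_debe6c_al

open Finset Pool.Agent.H.MP_43f46b_al Module MonoidAlgebra

section
variable {k : Type} [Field k] {G : Type} [Group G] [TopologicalSpace G] [IsTopologicalGroup G]

lemma jn_span' {α : Type} [Fintype α] {s : α → G}
    (hs : Dense (Subgroup.closure (Set.range s) : Set G)) (N : Subgroup G)
    (hN : N.Normal) (ho : IsOpen (N : Set G)) (n : ℕ) : Mp k G n ⊔ Kn k N ≤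
      Sp (fun n => Mp k G n ⊔ Kn k N) (fun a => of k G (s a) - 1) n fun _ => True := by
  refine sup_le ?_ (le_sup_right.trans le_sup_right)
  have hJ := jn_fl (k := k) N hN
  have m1 : ∀ g, of k G g - 1 ∈ Mp k G 1 ⊔ Kn k N := fun g => Submodule.mem_sup_left (mp1 g)
  have a1 : Ag k G ≤ Sp (fun n => Mp k G n ⊔ Kn k N) (fun a => of k G (s a) - 1) 1
      fun _ => True := by
    have m2 := fun g h : G => Submodule.mem_sup_right (S := Submodule.span k
      (ev (fun a => of k G (s a) - 1) '' {w | w.length = 1 ∧ True})) (hJ.2.2 _ _ _ _ (m1 g) (m1 h))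
    have b : ∀ g ∈ Subgroup.closure (Set.range s), of k G g - 1 ∈
        Sp (fun n => Mp k G n ⊔ Kn k N) (fun a => of k G (s a) - 1) 1 fun _ => True := by
      intro g hg
      induction hg using Subgroup.closure_induction with
      | mem g hg =>
        obtain ⟨a, rfl⟩ := hg
        exact Submodule.mem_sup_left (Submodule.subset_span ⟨[a], by simp, by simp [ev]⟩)
      | one => simp [-of_apply]
      | mul g h _ _ ig ih =>
        convert add_mem (add_mem ig ih) (m2 g h) using 1
        simp only [map_mul]; noncomm_ring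
      | inv g _ ig =>
        convert sub_mem (neg_mem ig) (m2 g⁻¹ g) using 1
        simp only [sub_mul, mul_sub, ← map_mul, inv_mul_cancel, map_one, mul_one, one_mul]; abel
    refine Submodule.span_le.2 ?_
    rintro _ ⟨g, rfl⟩
    obtain ⟨g', h1, h2⟩ := hs.exists_mem_open (U := (fun x => g⁻¹ * x) ⁻¹' N)
      (ho.preimage (by fun_prop)) ⟨g, by simp⟩
    have := add_mem (b g' h1) (Submodule.mem_sup_right (Submodule.mem_sup_right
      (Submodule.subset_span ⟨g, g', h2, rfl⟩ : _ ∈ Kn k N)))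
    rwa [sub_add_sub_cancel'] at this
  induction n with
  | zero =>
    intro x _
    induction x using MonoidAlgebra.induction_on with
    | of g =>
      rw [← add_sub_cancel 1 (of k G g)]
      exact Submodule.add_mem_sup (Submodule.subset_span ⟨[], by simp, rfl⟩) (m1 g)
    | add x y hx hy => exact add_mem (hx trivial) (hy trivial)
    | smul c x hx => exact Submodule.smul_mem _ c (hx trivial)
  | succ n ih =>
    refine le_trans (b := Mp k G n * Ag k G) ?_ (Submodule.mul_le.2 fun x hx y hy =>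
      sp_mul hJ (fun a => m1 _) (fun _ _ _ _ _ => trivial) (ih hx) (a1 hy))
    rw [Mp, pow_succ]
    refine mul_le_mul_left ?_ _
    cases n
    exacts [le_top, le_rfl]

lemma jc_open' {p : ℕ} [Fact p.Prime] {α : Type} [Fintype α] {s : α → G}
    (hs : Dense (Subgroup.closure (Set.range s) : Set G)) (n : ℕ) :
    IsOpen (Dm (jc_fl (k := ZMod p)) (of (ZMod p) G) n : Set G) := by
  let S := fun n => Submodule.span (ZMod p)
    (ev (fun a => of (ZMod p) G (s a) - 1) '' {w | w.length < n})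
  have a : ∀ (N : Subgroup G), N.Normal → IsOpen (N : Set G) → ∀ n,
      ⊤ ≤ S n ⊔ (Mp (ZMod p) G n ⊔ Kn (ZMod p) N) := fun N hN ho n => by
    induction n with
    | zero => exact le_sup_of_le_right le_sup_left
    | succ n ih =>
      refine ih.trans (sup_le (le_sup_of_le_left (Submodule.span_mono (Set.image_mono
        fun w (h : _ < _) => h.trans (Nat.lt_succ_self n)))) ((jn_span' hs N hN ho n).trans
        (sup_le_sup_right (Submodule.span_mono (Set.image_mono fun w h => ?_)) _)))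
      exact h.1.trans_lt (Nat.lt_succ_self n)
  have : FiniteDimensional (ZMod p) (S n) :=
    FiniteDimensional.span_of_finite _ ((List.finite_length_lt _ n).image _)
  obtain ⟨N, -, hN⟩ := (wellFounded_lt.onFun
    (f := fun N : {N : Subgroup G // N.Normal ∧ IsOpen (N : Set G)} =>
      Module.finrank (ZMod p) ↥(S n ⊓ (Mp (ZMod p) G n ⊔ Kn (ZMod p) N)))).has_min Set.univ
    ⟨⟨⊤, inferInstance, isOpen_univ⟩, trivial⟩
  refine Subgroup.isOpen_mono (fun g hg => (Submodule.mem_iInf _).2 fun N' => ?_) N.2.2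
  have m : ∀ {N N' : Subgroup G}, N ≤ N' →
      Mp (ZMod p) G n ⊔ Kn (ZMod p) N ≤ Mp (ZMod p) G n ⊔ Kn (ZMod p) N' := fun h =>
    sup_le_sup_left (Submodule.span_mono (by
      rintro _ ⟨g, g', h1, rfl⟩; exact ⟨g, g', h h1, rfl⟩)) _
  have := N.2.1
  have := N'.2.1
  have e := Submodule.eq_of_le_of_finrank_le (inf_le_inf_left (S n) (m (inf_le_left (b := N'.1))))
    (not_lt.1 (hN ⟨N ⊓ N', inferInstance, N.2.2.inter N'.2.2⟩ trivial))
  obtain ⟨x, h1, y, h2, h3⟩ := Submodule.mem_sup.1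
    (a (N ⊓ N') inferInstance (N.2.2.inter N'.2.2) n (Submodule.mem_top (x := of (ZMod p) G g - 1)))
  have h4 : of (ZMod p) G g - 1 ∈ Mp (ZMod p) G n ⊔ Kn (ZMod p) N := Submodule.mem_sup_right
    (Submodule.subset_span ⟨g, 1, by simpa using hg, by rw [map_one]⟩)
  rw [← h3] at h4 ⊢
  have h5 : x ∈ S n ⊓ (Mp (ZMod p) G n ⊔ Kn (ZMod p) N) :=
    ⟨h1, by simpa using sub_mem h4 (m inf_le_left h2)⟩
  exact m inf_le_right (add_mem (e ▸ h5).2 h2)

lemma smap {A B : Type} [Ring A] [Algebra k A] [Ring B] [Algebra k B] (π : A →ₐ[k] B) {S : Set A}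
    {T : Submodule k B} (h : ∀ x ∈ S, π x ∈ T) {x : A} (hx : x ∈ Submodule.span k S) : π x ∈ T :=
  (Submodule.span_le (p := Submodule.comap π.toLinearMap T)).2 h hx

lemma dimle {α : Type} [Fintype α] {s : α → G}
    (hs : Dense (Subgroup.closure (Set.range s) : Set G)) {B : Type} [Ring B] [Algebra k B]
    (τ : G →* Bˣ) (ho : IsOpen (τ.ker : Set G)) {n : ℕ}
    (h1 : sw k (fun a => (τ (s a) : B) - 1) (fun _ => True) = ⊤)
    (h2 : ∀ g, (τ g : B) - 1 ∈ sw k (fun a => (τ (s a) : B) - 1) fun u => 1 ≤ u.length)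
    (h3 : ∀ w : List α, n + 1 ≤ w.length → ev (fun a => (τ (s a) : B) - 1) w = 0) :
    finrank k B ≤ ∑ j ∈ range (n + 1), cnt (Nor (Jc k G) fun a => of k G (s a) - 1) j := by
  classical
  let π : MonoidAlgebra k G →ₐ[k] B := MonoidAlgebra.lift k B G ((Units.coeHom B).comp τ)
  have e : ∀ g, π (of k G g) = τ g := fun g => by simp [π]
  have e' : ∀ w, π (ev (fun a => of k G (s a) - 1) w) = ev (fun a => (τ (s a) : B) - 1) w :=
    fun w => by simp only [ev, map_list_prod, List.map_map, Function.comp_def, map_sub, e, map_one]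
  have a1 : ∀ m, ⊤ ≤ Submodule.span k (ev (fun a => of k G (s a) - 1) ''
      {w | w.length < m ∧ w ∈ Nor (Jc k G) fun a => of k G (s a) - 1}) ⊔
      (Mp k G m ⊔ Kn k τ.ker) := fun m => by
    induction m with
    | zero => exact le_sup_of_le_right le_sup_left
    | succ m ih =>
      have b1 := nor_span (J := Jc k G) (y := fun a => of k G (s a) - 1) m
      have b2 := jn_span' (k := k) hs τ.ker inferInstance ho m
      have b3 : Jc k G (m + 1) ≤ Mp k G (m + 1) ⊔ Kn k τ.ker := iInf_le _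
        (⟨τ.ker, inferInstance, ho⟩ : {N : Subgroup G // N.Normal ∧ IsOpen (N : Set G)})
      simp only [Sp] at b1 b2
      refine ih.trans (sup_le (le_sup_of_le_left (Submodule.span_mono (Set.image_mono
        fun w (h : _ ∧ _) => And.intro (h.1.trans (Nat.lt_succ_self m)) h.2)))
        (b2.trans (sup_le (le_sup_left.trans (b1.trans (sup_le_sup (Submodule.span_mono
          (Set.image_mono fun w (h : _ ∧ _) => And.intro (h.1.trans_lt (Nat.lt_succ_self m)) h.2))
          b3))) le_sup_right)))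
  have a2 : ∀ m, ∀ x ∈ Ag k G ^ m, π x ∈
      sw k (fun a => (τ (s a) : B) - 1) fun u => m ≤ u.length := fun m => by
    induction m with
    | zero => intro x _; simp [h1]
    | succ m ih =>
      intro x hx
      rw [pow_succ] at hx
      refine Submodule.mul_induction_on hx (fun x hx y hy => ?_) fun x y hx hy => ?_
      · rw [map_mul]
        refine sw_mul (R' := fun u => 1 ≤ u.length) (fun u u' h1 h2 => by simp; omega) (ih x hx)
          (smap π ?_ hy)
        rintro _ ⟨g, rfl⟩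
        exact (show π (of k G g - 1) ∈ _ by rw [map_sub, e, map_one]; exact h2 g)
      · rw [map_add]; exact add_mem hx hy
  have a3 : Mp k G (n + 1) ⊔ Kn k τ.ker ≤ LinearMap.ker π.toLinearMap :=
    sup_le (fun x hx => (Submodule.span_le (p := ⊥)).2 (by
      rintro _ ⟨w, hw, rfl⟩; exact h3 w hw) (a2 _ x hx)) (Submodule.span_le.2 (by
      rintro _ ⟨g, g', h, rfl⟩
      have : τ g = τ g' := by rw [← inv_mul_eq_one, ← map_inv, ← map_mul]; exact h
      simp [-of_apply, e, this]))
  set T := (range (n + 1)).biUnion fun j =>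
    (words α j).filter (· ∈ Nor (Jc k G) fun a => of k G (s a) - 1) with hT
  have a4 : (⊤ : Submodule k B) ≤
      Submodule.span k (T.image (ev fun a => (τ (s a) : B) - 1) : Set B) := by
    rw [← h1, Submodule.span_le]
    rintro _ ⟨w, -, rfl⟩
    obtain ⟨x, q1, y, q2, q3⟩ := Submodule.mem_sup.1
      (a1 (n + 1) (Submodule.mem_top (x := ev (fun a => of k G (s a) - 1) w)))
    rw [← e', ← q3, map_add, show π y = 0 from a3 q2, add_zero]
    refine smap π ?_ q1
    rintro _ ⟨u, hu, rfl⟩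
    refine Submodule.subset_span (mem_coe.2 (mem_image.2 ⟨u, ?_, (e' u).symm⟩))
    exact mem_biUnion.2 ⟨_, mem_range.2 hu.1, mem_filter.2 ⟨mem_words.2 rfl, hu.2⟩⟩
  rw [← finrank_top, top_le_iff.1 a4 |>.symm]
  exact (finrank_span_finset_le_card _).trans (card_image_le.trans card_biUnion_le)

lemma hext {α Q : Type} [Group Q] {s : α → G} (hs : Dense (Subgroup.closure (Set.range s) : Set G))
    {φ ψ : G →* Q} (h1 : IsOpen (φ.ker : Set G)) (h2 : IsOpen (ψ.ker : Set G))
    (h : ∀ a, φ (s a) = ψ (s a)) : φ = ψ := by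
  have a := (φ.eqLocus ψ).isClosed_of_isOpen (Subgroup.isOpen_mono (H₁ := φ.ker ⊓ ψ.ker)
    (fun g hg => (hg.1 : φ g = 1).trans (hg.2 : ψ g = 1).symm) (h1.inter h2))
  exact MonoidHom.ext fun g => closure_minimal (t := φ.eqLocus ψ) ((Subgroup.closure_le _).2 (by
    rintro _ ⟨a, rfl⟩; exact h a)) a (hs g)
end

lemma grow {α : Type} [Fintype α] {W : Set (List α)} (hW : Fac W)
    (h : ∀ n, (3 / 2 : ℝ) ^ n ≤ (∑ j ∈ range (n + 1), cnt W j : ℕ)) (n : ℕ) (hn : 1 ≤ n) :
    (5 / 4 : ℝ) ^ n ≤ cnt W n := by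
  classical
  have a1 : ∀ a b, cnt W (a + b) ≤ cnt W a * cnt W b := fun a b => by
    rw [cnt, cnt, cnt, ← card_product]
    refine card_le_card_of_injOn (fun w => (w.take a, w.drop a)) (fun w hw => ?_)
      fun w _ w' _ e => ?_
    · simp only [coe_filter, mem_words, Set.mem_ofPred_eq, coe_product, Set.mem_prod] at hw ⊢
      exact ⟨⟨by simp [hw.1], hW _ _ (List.take_prefix _ _).isInfix hw.2⟩, by simp [hw.1],
        hW _ _ (List.drop_suffix _ _).isInfix hw.2⟩
    · rw [← List.take_append_drop a w, (Prod.mk.inj e).1, (Prod.mk.inj e).2, List.take_append_drop]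
  by_contra! c
  set C : ℝ := ∑ i ∈ range n, (cnt W i : ℝ) with hC
  have C0 : 0 ≤ C := by positivity
  have a2 : ∀ j, (cnt W j : ℝ) ≤ C * (5 / 4) ^ j := fun j => by
    induction j using Nat.strong_induction_on with
    | h j ih =>
      rcases lt_or_ge j n with e | e
      · exact (single_le_sum (f := fun i => (cnt W i : ℝ)) (fun _ _ => by positivity)
          (mem_range.2 e)).trans (le_mul_of_one_le_right C0 (one_le_pow₀ (by norm_num)))
      · obtain ⟨j, rfl⟩ := Nat.exists_eq_add_of_le e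
        refine (Nat.cast_le.2 (a1 _ _)).trans ?_
        rw [Nat.cast_mul, pow_add, mul_left_comm]
        exact mul_le_mul c.le (ih j (by omega)) (by positivity) (by positivity)
  have a3 : ∀ m, ∑ j ∈ range m, (cnt W j : ℝ) ≤ 4 * C * (5 / 4) ^ m := fun m => by
    induction m with
    | zero => simpa using C0
    | succ m ih => rw [sum_range_succ, pow_succ]; linarith [a2 m]
  obtain ⟨m, hm⟩ := pow_unbounded_of_one_lt (5 * C) (show (1 : ℝ) < 6 / 5 by norm_num)
  have a4 := (h m).trans_eq (Nat.cast_sum _ _) |>.trans (a3 (m + 1))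
  rw [show (3 / 2 : ℝ) = 6 / 5 * (5 / 4) by norm_num, mul_pow, pow_succ] at a4
  nlinarith [pow_pos (show (0 : ℝ) < 5 / 4 by norm_num) m]

lemma dm_mem {p : ℕ} [Fact p.Prime] {A G : Type} [Ring A] [Algebra (ZMod p) A] [Group G]
    {J : ℕ → Submodule (ZMod p) A} {hJ : Fl J} {ι : G →* A} {n : ℕ} {g : G} :
    g ∈ Dm hJ ι n ↔ ι g - 1 ∈ J n := Iff.rfl

theorem lower {p : ℕ} [Fact p.Prime] {G F : Type} [Group G] [TopologicalSpace G]
    [IsTopologicalGroup G] [T2Space G] [Group F] [TopologicalSpace F] [IsTopologicalGroup F]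
    [CompactSpace F] {d r : ℕ} (hd : 2 < d) (hr : 4 * r ≤ d ^ 2)
    (hg : Nat.card {φ : G →* Multiplicative (ZMod p) // IsOpen (φ.ker : Set G)} = p ^ d)
    {x : Fin d → F} (hx : Dense (Subgroup.closure (Set.range x) : Set F))
    (hF : ∀ (P : Type) [Group P] [Finite P], IsPGroup p P → ∀ a : Fin d → P,
      ∃ f : F →* P, IsOpen (f.ker : Set F) ∧ ∀ i, f (x i) = a i)
    (π : F →* G) (hπ : Continuous π) (hs : Function.Surjective π) (ρ : Fin r → F)
    (hk : (π.ker : Set F) = closure (Subgroup.normalClosure (Set.range ρ) : Set F)) :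
    Dense (Subgroup.closure (Set.range fun i => π (x i)) : Set G) ∧ ∀ n, (3 / 2 : ℝ) ^ n ≤
      (∑ j ∈ range (n + 1), cnt (Nor (Jc (ZMod p) G) fun i => of (ZMod p) G (π (x i)) - 1) j : ℕ)
    := by
  have hD : Dense (Subgroup.closure (Set.range fun i => π (x i)) : Set G) := by
    have := hs.denseRange.dense_image hπ hx
    rwa [← Subgroup.coe_map, MonoidHom.map_closure, ← Set.range_comp] at this
  refine ⟨hD, fun n => ?_⟩
  obtain ⟨A, _, _, X, h⟩ := trunc (ZMod p) d (n + 1) n.succ_pos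
  have := tr_fin h
  have : Finite A := Module.finite_of_finite (ZMod p)
  have hJ := lf_fl h
  have z : Lf (ZMod p) X (n + 1) ≤ ⊥ := Submodule.span_le.2 (by
    rintro _ ⟨w, hw, rfl⟩; exact h.2.1 w hw)
  have nil : ∀ a ∈ Lf (ZMod p) X 1, a ^ (n + 1) = 0 := fun a ha => by
    simpa using z (by simpa [ev] using (ev_mem hJ (y := fun _ : Unit => a) (fun _ => 1)
      (fun _ => ha) (List.replicate (n + 1) ())))
  obtain ⟨f, f1, f2⟩ := hF (Dm hJ (Units.coeHom A) 1) (fun u => ⟨n + 1, Subtype.ext (Units.ext (by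
      obtain ⟨t, ht⟩ := (Commute.one_left ((u.1 : A) - 1)).exists_add_pow_prime_pow_eq
        (Fact.out : p.Prime) (n + 1)
      rw [add_sub_cancel, pow_eq_zero_of_le (Nat.lt_pow_self (Fact.out : p.Prime).one_lt).le
        (nil ((u.1 : A) - 1) u.2), ← map_natCast (algebraMap (ZMod p) A), ZMod.natCast_self] at ht
      simpa using ht))⟩)
    fun i => ⟨(IsNilpotent.isUnit_one_add ⟨_, nil _ (sw_one (s := i) le_rfl)⟩).unit, by
      refine dm_mem.2 ?_
      rw [Units.coeHom_apply, IsUnit.unit_spec, add_sub_cancel_left]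
      exact sw_one le_rfl⟩
  let ι : F →* Aˣ := (Subgroup.subtype _).comp f
  have i1 : ∀ g, (ι g : A) - 1 ∈ Lf (ZMod p) X 1 := fun g => (f g).2
  have i2 : ∀ i, (ι (x i) : A) - 1 = X i := fun i => by simp [ι, f2]
  have i3 : f.ker ≤ ι.ker := fun g hg => by simp [ι, MonoidHom.mem_ker.1 hg]
  have hq := hπ.isClosedMap.isQuotientMap hπ hs
  have hρ : ∀ j, π (ρ j) = 1 := fun j => show ρ j ∈ (π.ker : Set F) from
    hk ▸ subset_closure (Subgroup.subset_normalClosure ⟨j, rfl⟩)
  have i4 : ∀ j, (ι (ρ j) : A) - 1 ∈ Lf (ZMod p) X 2 := fun j => by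
    rw [← Submodule.Quotient.mk_eq_zero, ← Module.forall_dual_apply_eq_zero_iff (ZMod p)]
    intro l
    let ψ : F →* Multiplicative (ZMod p) := MonoidHom.mk' (fun g => Multiplicative.ofAdd
      (l (Submodule.Quotient.mk ((ι g : A) - 1)))) fun g g' => by
        rw [← ofAdd_add, ← map_add, ← Submodule.Quotient.mk_add]
        congr 2
        rw [Submodule.Quotient.eq]
        convert hJ.2.2 _ _ _ _ (i1 g) (i1 g') using 1
        rw [map_mul, Units.val_mul]; noncomm_ring
    have o : IsOpen (ψ.ker : Set F) := Subgroup.isOpen_mono (fun g hg => by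
      simp [ψ, MonoidHom.mem_ker.1 (i3 hg)]) f1
    obtain ⟨χ, hχ⟩ := ((Nat.bijective_iff_injective_and_card (fun (φ :
      {φ : G →* Multiplicative (ZMod p) // IsOpen (φ.ker : Set G)}) (i : Fin d) =>
        φ.1 (π (x i)))).2 ⟨fun φ φ' e => Subtype.ext (hext hD φ.2 φ'.2 (congrFun e)), by
          simp [hg, Nat.card_pi]⟩).2 fun i => ψ (x i)
    have := DFunLike.congr_fun (hext hx (φ := χ.1.comp π) (χ.2.preimage hπ) o (congrFun hχ)) (ρ j)
    rw [MonoidHom.comp_apply, hρ, map_one] at this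
    exact this.symm
  let I : Ideal A :=
    { carrier := Id (ZMod p) fun j => (ι (ρ j) : A) - 1
      add_mem' := add_mem
      zero_mem' := zero_mem _
      smul_mem' := fun c _ hx => by simpa using id_mul hx c 1 }
  have : I.IsTwoSided := ⟨fun c hx => by have := id_mul hx 1 c; rwa [one_mul] at this⟩
  let g : F →* (A ⧸ I)ˣ := (Units.map (Ideal.Quotient.mk I).toMonoidHom).comp ι
  have g1 : IsOpen (g.ker : Set F) := Subgroup.isOpen_mono (fun s hs => by
    simp [g, MonoidHom.mem_ker.1 (i3 hs)]) f1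
  have g2 : π.ker ≤ g.ker := by
    rw [← SetLike.coe_subset_coe, hk]
    refine closure_minimal (Subgroup.normalClosure_le_normal ?_) (g.ker.isClosed_of_isOpen g1)
    rintro _ ⟨j, rfl⟩
    refine Units.ext (Ideal.Quotient.eq.2 (Submodule.subset_span ⟨1, j, 1, by simp⟩))
  let τ := π.liftOfSurjective hs ⟨g, g2⟩
  have t1 : ∀ s, τ (π s) = g s := fun s => MonoidHom.liftOfRightInverse_comp_apply ..
  let q := Ideal.Quotient.mkₐ (ZMod p) I
  have t2 : ∀ s, (τ (π s) : A ⧸ I) - 1 = q (ι s - 1) := fun s => by rw [t1]; rfl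
  have t3 : ∀ w, ev (fun i => (τ (π (x i)) : A ⧸ I) - 1) w = q (ev X w) := fun w => by
    simp only [t2, i2, ev, map_list_prod, List.map_map, Function.comp_def]
  have t4 : ∀ (R : List (Fin d) → Prop), ∀ a ∈ sw (ZMod p) X R,
      q a ∈ sw (ZMod p) (fun i => (τ (π (x i)) : A ⧸ I) - 1) R := fun R _ => smap q (by
      rintro _ ⟨w, hw, rfl⟩; exact Submodule.subset_span ⟨w, hw, t3 w⟩)
  have d1 := dimle (k := ZMod p) hD τ (hq.isOpen_preimage.1 (by
      convert g1 using 1; ext s; simp [t1])) (n := n)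
    (eq_top_iff.2 fun b _ => by
      obtain ⟨a, rfl⟩ := Ideal.Quotient.mk_surjective b
      exact t4 _ a (by simp [h.1]))
    (fun s => by obtain ⟨s, rfl⟩ := hs s; rw [t2]; exact t4 _ _ (i1 s))
    fun w hw => by rw [t3, h.2.1 w hw, map_zero]
  have d2 := gs h i4 hd hr n n.lt_succ_self
  rw [le_bot_iff.1 z, sup_bot_eq] at d2
  have d3 := q.toLinearMap.finrank_range_add_finrank_ker
  rw [LinearMap.range_eq_top.2 Ideal.Quotient.mk_surjective, finrank_top,
    show LinearMap.ker q.toLinearMap = Id (ZMod p) fun j => (ι (ρ j) : A) - 1 from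
      Submodule.ext fun a => Ideal.Quotient.eq_zero_iff_mem] at d3
  rw [← d3, Nat.cast_add] at d2
  exact (le_of_add_le_add_right d2).trans (Nat.cast_le.2 d1)

end Pool.Agent.H.MP_debe6c_al
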